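import Mathlib

set_option autoImplicit false

namespace Pool.Agent.H.MP_09e892_an

open Set Filter Topology MeasureTheory Metric Real
open scoped ENNReal ComplexConjugate Convolution

theorem ci {g : ℂ → ℝ} (h : Continuous g) : CircleIntegrable g 0 1 := h.continuousOn.circleIntegrable zero_le_one

theorem sub {φ : ℂ → ℂ} (h : Differentiable ℂ φ) {p : ℝ} (p0 : 0 < p) :
    ‖φ 0‖ ^ p ≤ circleAverage (‖φ ·‖ ^ p) 0 1 := by
  classical
  by_cases z : φ 0 = 0
  · simpa [z, p0.ne'] using circleAverage_nonneg_of_nonneg fun _ _ => by positivity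
  have a := norm_pos_iff.2 z
  have A : AnalyticOnNhd ℂ φ univ := fun z _ => h.analyticAt z
  have j : log ‖φ 0‖ ≤ circleAverage (log ‖φ ·‖) 0 1 := by
    have B := A.mono (subset_univ (closedBall 0 |1|))
    rw [B.circleAverage_log_norm one_ne_zero z, le_add_iff_nonneg_left]
    refine finsum_nonneg fun u => ?_
    by_cases c : u ∈ closedBall (0 : ℂ) |1|
    · refine mul_nonneg (mod_cast MeromorphicOn.AnalyticOnNhd.divisor_nonneg B u) ?_
      rw [one_mul, log_inv, neg_nonneg]
      exact log_nonpos (norm_nonneg _) (by simpa using c)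
    simp [Function.locallyFinsuppWithin.apply_eq_zero_of_notMem _ c]
  have e : (log ‖φ ·‖) =ᶠ[codiscreteWithin (sphere 0 |1|)] fun u => if φ u = 0 then log ‖φ 0‖ - p⁻¹ else log ‖φ u‖ := by
    filter_upwards [codiscreteWithin_mono (subset_univ _) (A.preimage_zero_mem_codiscrete z)] with u hu
    exact (if_neg hu).symm
  have i := (A.mono (subset_univ (sphere 0 |1|))).meromorphicOn.circleIntegrable_log_norm.congr_codiscreteWithin e
  rw [circleAverage_congr_codiscreteWithin e one_ne_zero] at j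
  have c : Continuous (‖φ ·‖ ^ p) := h.continuous.norm.rpow_const fun _ => .inr p0.le
  have q : 0 < ‖φ 0‖ ^ p := by positivity
  replace j := j.trans (circleAverage_mono (f₂ := fun u => (p * ‖φ 0‖ ^ p)⁻¹ • ‖φ u‖ ^ p + (log ‖φ 0‖ - p⁻¹)) i
    (ci (by fun_prop)) fun u _ => by
      split_ifs with k
      · exact le_add_of_nonneg_left (by positivity)
      have := log_le_sub_one_of_pos (div_pos (rpow_pos_of_pos (norm_pos_iff.2 k) p) q)
      rw [log_div (by positivity) q.ne', log_rpow (norm_pos_iff.2 k), log_rpow a] at this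
      refine le_of_mul_le_mul_left ?_ p0
      rw [smul_eq_mul, mul_add, mul_sub, mul_inv, mul_assoc, mul_inv_cancel_left₀ p0.ne', mul_inv_cancel₀ p0.ne',
        ← div_eq_inv_mul]
      linarith)
  rw [circleAverage_fun_add (ci (by fun_prop)) (ci (by fun_prop)), circleAverage_fun_smul, circleAverage_const,
    smul_eq_mul, mul_inv, mul_assoc] at j
  rwa [add_sub, le_sub_iff_add_le', add_le_add_iff_right, le_mul_iff_one_le_right (inv_pos.2 p0),
    le_inv_mul_iff₀ q, mul_one] at j

theorem sub1 (c s : ℂ) : ‖1 - c‖ + ‖c‖ * ‖s‖ ≤ circleAverage (fun z => 3 * ‖1 - c * Complex.exp (z * s)‖) 0 1 := by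
  have d : Differentiable ℂ fun z => 1 - c * Complex.exp (z * s) := by fun_prop
  have a := sub d one_pos
  have b := sub (differentiableOn_univ.1 ((Complex.differentiableOn_dslope (c := 0) univ_mem).2 d.differentiableOn))
    one_pos
  have D : HasDerivAt (fun z => 1 - c * Complex.exp (z * s)) (-(c * s)) 0 := by
    simpa using ((((hasDerivAt_id (0 : ℂ)).mul_const s).cexp).const_mul c).const_sub 1
  simp only [rpow_one, dslope_same, D.deriv, norm_neg, norm_mul, zero_mul, Complex.exp_zero, mul_one] at a b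
  replace b := b.trans (circleAverage_mono (f₂ := fun z => ‖1 - c * Complex.exp (z * s)‖ + ‖1 - c‖)
    (ci (differentiableOn_univ.1 ((Complex.differentiableOn_dslope (c := 0) univ_mem).2
      d.differentiableOn)).continuous.norm) (ci (by fun_prop)) fun z hz => by
        have z1 : ‖z‖ = 1 := by simpa using hz
        rw [dslope_of_ne _ (by rintro rfl; simp at z1), slope_def_module, norm_smul]
        simpa [z1] using norm_sub_le (1 - c * Complex.exp (z * s)) (1 - c))
  rw [circleAverage_fun_add (ci (by fun_prop)) (ci (by fun_prop)), circleAverage_const] at b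
  simp only [← smul_eq_mul (3 : ℝ), circleAverage_fun_smul]
  rw [smul_eq_mul]
  linarith

variable {n : ℕ}

theorem rot {Φ ψ : (Fin n → ℂ) → ℝ} (h : Continuous Φ) (h0 : ∀ u, 0 ≤ Φ u)
    (k : ∀ u, ψ u ≤ circleAverage (fun z => Φ (z • u)) 0 1) : ∫⁻ u, .ofReal (ψ u) ≤ ∫⁻ u, .ofReal (Φ u) := by
  have m : ∀ θ, ∫⁻ u, .ofReal (Φ (circleMap 0 1 θ • u)) = ∫⁻ u, .ofReal (Φ u) := fun θ =>
    (volume_preserving_pi fun _ : Fin n => (rotation (Circle.exp θ)).measurePreserving).lintegral_comp
      (f := fun u => .ofReal (Φ u)) (by fun_prop) ▸ lintegral_congr fun u => by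
        congr 2; ext; simp [rotation_apply, circleMap]
  calc _ ≤ ∫⁻ u, .ofReal (2 * π)⁻¹ * ∫⁻ θ in Ioc 0 (2 * π), .ofReal (Φ (circleMap 0 1 θ • u)) :=
        lintegral_mono fun u => by
          rw [← ofReal_integral_eq_lintegral_ofReal ((Continuous.integrableOn_Ioc (by fun_prop)))
            (ae_of_all _ fun _ => h0 _), ← ENNReal.ofReal_mul (by positivity),
              ← intervalIntegral.integral_of_le two_pi_pos.le]
          exact ENNReal.ofReal_le_ofReal (k u)
    _ = _ := by
      rw [lintegral_const_mul' _ _ (by simp), lintegral_lintegral_swap (by fun_prop)]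
      simp only [m, lintegral_const, Measure.restrict_apply_univ, volume_Ioc, sub_zero]
      rw [mul_left_comm, ← ENNReal.ofReal_mul (by positivity), inv_mul_cancel₀ two_pi_pos.ne', ENNReal.ofReal_one,
        mul_one]

/-- squared length -/
noncomputable def N (z : Fin n → ℂ) : ℝ := ∑ i, ‖z i‖ ^ 2

/-- hermitian form -/
noncomputable def B (z u : Fin n → ℂ) : ℂ := ∑ i, z i * conj (u i)

/-- the distance -/
noncomputable def d (α : ℝ) (z w : Fin n → ℂ) : ℝ≥0∞ :=
  ∫⁻ u, .ofReal (‖Complex.exp (α * B z u) - Complex.exp (α * B w u)‖ * ((α / 2 / π) ^ n * exp (-(α / 2) * N u)))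

@[fun_prop] theorem cN : Continuous (N (n := n)) := by unfold N; fun_prop

theorem Nadd (z u : Fin n → ℂ) : N (z + u) = N z + 2 * (B z u).re + N u := by
  simp only [N, B, Complex.re_sum, Finset.mul_sum, ← Finset.sum_add_distrib, Complex.sq_norm, Pi.add_apply,
    Complex.normSq_add]
  exact Finset.sum_congr rfl fun _ _ => by ring

theorem Bself (z : Fin n → ℂ) : (B z z).re = N z := by
  simp [N, B, Complex.mul_conj, Complex.sq_norm]

theorem Nrot {z : ℂ} (h : z ∈ sphere (0 : ℂ) |1|) (u : Fin n → ℂ) : N (z • u) = N u := by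
  simp [N, show ‖z‖ = 1 by simpa using h]

theorem Nle {u : Fin n → ℂ} {r : ℝ} (h : ‖u‖ ≤ r) : N u ≤ n * r ^ 2 := by
  simpa [N] using Finset.sum_le_card_nsmul .univ _ _ fun i _ =>
    pow_le_pow_left₀ (norm_nonneg _) ((norm_le_pi_norm u i).trans h) 2

theorem low (hn : 0 < n) {α : ℝ} (α0 : 0 < α) : ∃ κ > 0, ∀ z v : Fin n → ℂ, .ofReal (κ * exp (α / 2 * N z) *
    (‖1 - Complex.exp (α * B v z)‖ + ‖Complex.exp (α * B v z)‖ * ‖v‖)) ≤ d α z (z + v) := by
  have n0 : (0 : ℝ) < n := by exact_mod_cast hn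
  have : Nonempty (Fin n) := ⟨⟨0, hn⟩⟩
  have V := ENNReal.toReal_pos (measure_ball_pos volume (0 : Fin n → ℂ) (show 0 < 1 / (2 * n : ℝ) by positivity)).ne'
    measure_ball_lt_top.ne
  refine ⟨min 1 (α / 2) * ((α / 2 / π) ^ n * exp (-(α / 2) * (n * 2 ^ 2))) / 3 *
    (volume (ball (0 : Fin n → ℂ) (1 / (2 * n)))).toReal, by positivity, fun z v => ?_⟩
  generalize hc : Complex.exp (α * B v z) = c
  rw [d, ← lintegral_add_left_eq_self _ z]
  refine le_trans ?_ ((rot (Φ := fun u => ‖1 - conj c * Complex.exp (α * B u v)‖ *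
    (exp (α / 2 * N z) * ((α / 2 / π) ^ n * exp (-(α / 2) * N u)))) (ψ := fun u => (‖1 - c‖ + ‖c‖ * (α * ‖B u v‖)) / 3 *
      (exp (α / 2 * N z) * ((α / 2 / π) ^ n * exp (-(α / 2) * N u)))) (by unfold B; fun_prop)
        (fun _ => by positivity) fun u => ?_).trans_eq (lintegral_congr fun u => congrArg _ ?_))
  · obtain ⟨j, hj⟩ := Finite.exists_max fun i => ‖v i‖
    replace hj := (norm_le_pi_norm v j).antisymm ((pi_norm_le_iff_of_nonneg (norm_nonneg _)).2 hj)
    rw [mul_right_comm _ (ENNReal.toReal _), mul_right_comm _ (ENNReal.toReal _), ENNReal.ofReal_mul' (by positivity),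
      ENNReal.ofReal_toReal measure_ball_lt_top.ne, ← Measure.addHaar_ball_center volume (Pi.single j 1),
      ← setLIntegral_const]
    refine (setLIntegral_mono' measurableSet_ball fun u hu => ENNReal.ofReal_le_ofReal ?_).trans
      (setLIntegral_le_lintegral _ _)
    rw [mem_ball_iff_norm] at hu
    have u1 : N u ≤ n * 2 ^ 2 := Nle (by
      have := norm_le_insert' u (Pi.single j 1)
      rw [Pi.norm_single, norm_one] at this
      have : 1 / (2 * n : ℝ) ≤ 1 := (div_le_one (by positivity)).2 (by linarith [show (1 : ℝ) ≤ n by exact_mod_cast hn])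
      linarith)
    have u2 : ‖v‖ / 2 ≤ ‖B u v‖ := by
      have e : B u v = conj (v j) + B (u - Pi.single j 1) v := by
        simp [B, sub_mul, Pi.single_apply]
      have := (norm_sum_le _ _).trans (Finset.sum_le_card_nsmul .univ
        (fun i => ‖(u - Pi.single j 1 : Fin n → ℂ) i * conj (v i)‖) (1 / (2 * n) * ‖v‖) fun i _ => by
          rw [norm_mul, Complex.norm_conj]
          exact mul_le_mul ((norm_le_pi_norm _ i).trans hu.le) (norm_le_pi_norm _ i) (norm_nonneg _) (by positivity))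
      rw [Finset.card_fin, nsmul_eq_mul, show n * (1 / (2 * n) * ‖v‖) = ‖v‖ / 2 by field_simp] at this
      have k := norm_sub_le (B u v) (B (u - Pi.single j 1) v)
      rw [e, add_sub_cancel_right, ← e, Complex.norm_conj, hj] at k
      unfold B at k ⊢
      linarith
    calc _ = min 1 (α / 2) * (‖1 - c‖ + ‖c‖ * ‖v‖) / 3 *
        (exp (α / 2 * N z) * ((α / 2 / π) ^ n * exp (-(α / 2) * (n * 2 ^ 2)))) := by ring
      _ ≤ _ := by
        gcongr ?_ / 3 * (_ * (_ * exp ?_))
        · nlinarith [mul_le_mul_of_nonneg_right (min_le_left 1 (α / 2)) (norm_nonneg (1 - c)),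
            mul_le_mul_of_nonneg_right (min_le_right 1 (α / 2)) (mul_nonneg (norm_nonneg c) (norm_nonneg v)),
            mul_le_mul_of_nonneg_left u2 (mul_nonneg (norm_nonneg c) α0.le)]
        nlinarith
  · have := sub1 (conj c) (α * B u v)
    rw [← map_one (starRingEnd ℂ), ← map_sub, Complex.norm_conj, Complex.norm_conj, map_one, norm_mul,
      Complex.norm_of_nonneg α0.le] at this
    rw [circleAverage_congr_sphere (f₂ := fun ζ => ((exp (α / 2 * N z) * ((α / 2 / π) ^ n * exp (-(α / 2) * N u))) / 3) •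
      (3 * ‖1 - conj c * Complex.exp (ζ * (α * B u v))‖)) fun ζ h => by
        simp only [Nrot h, show B (ζ • u) v = ζ * B u v by simp [B, Finset.mul_sum, mul_assoc], mul_left_comm ζ,
          smul_eq_mul]
        ring, circleAverage_fun_smul, smul_eq_mul, div_mul_comm]
    exact mul_le_mul_of_nonneg_left this (by positivity)
  have e : Complex.exp (α * B z (z + u)) - Complex.exp (α * B (z + v) (z + u)) =
      Complex.exp (α * B z (z + u)) * conj (1 - conj c * Complex.exp (α * B u v)) := by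
    simp only [← hc, map_sub, map_one, map_mul, ← Complex.exp_conj, Complex.conj_conj, Complex.conj_ofReal, mul_sub,
      ← Complex.exp_add, mul_one, B, map_sum, ← mul_add, ← Finset.sum_add_distrib, Pi.add_apply, map_add]
    congr 4
    ext
    ring
  have e2 : (B z (z + u)).re = N z + (B z u).re := by
    simp only [← Bself, B, Pi.add_apply, map_add, mul_add, Finset.sum_add_distrib, Complex.add_re]
  rw [e, norm_mul, Complex.norm_conj, Complex.norm_exp, Complex.re_ofReal_mul, e2, Nadd, mul_comm (exp (α * _)),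
    mul_assoc, mul_left_comm (exp _), mul_left_comm (exp _), ← exp_add, ← exp_add]
  congr 3
  ring

theorem nF (α : ℝ) (f : (Fin n → ℂ) → ℂ) (z u : Fin n → ℂ) : ‖f (z + u) * Complex.exp (-(α * B u z))‖ =
    ‖f (z + u)‖ * exp (-(α * N (z + u) / 2)) * (exp (α / 2 * N z) * exp (α / 2 * N u)) := by
  rw [norm_mul, Complex.norm_exp, mul_assoc, ← exp_add, ← exp_add, add_comm z u, Nadd, Complex.neg_re,
    Complex.re_ofReal_mul]
  congr 2
  ring

theorem dom {α : ℝ} (α0 : 0 < α) {f : (Fin n → ℂ) → ℂ} (hf : Differentiable ℂ f) {p : ℝ≥0∞} (p0 : p ≠ 0)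
    (h : MemLp (fun z => ‖f z‖ * exp (-(α * N z / 2))) p) : ∃ G : (Fin n → ℂ) → ℝ, Continuous G ∧ MemLp G p ∧
      ∀ x z, ‖x - z‖ ≤ 2 → ‖f x‖ * exp (-(α * N x / 2)) ≤ G z := by
  have c : Continuous fun z => ‖f z‖ * exp (-(α * N z / 2)) := by have := hf.continuous; fun_prop
  rcases eq_or_ne p ⊤ with rfl | p1
  · obtain ⟨C, hC⟩ := eLpNormEssSup_lt_top_iff_isBoundedUnder.1 (by simpa [eLpNorm_exponent_top] using h.2)
    refine ⟨fun _ => C, continuous_const, memLp_top_const _, fun x _ _ => (le_abs_self _).trans ?_⟩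
    exact (isClosed_le c.nnnorm continuous_const).closure_subset (Measure.dense_of_ae hC x)
  have q := ENNReal.toReal_pos p0 p1
  have i := (integrable_norm_rpow_iff h.1 p0 p1).2 h
  simp only [norm_of_nonneg (show 0 ≤ ‖f _‖ * exp _ by positivity)] at i
  generalize hq : p.toReal = t at q i
  let k : ℝ → (Fin n → ℂ) → ℝ := fun r u => max 0 (r - ‖u‖)
  have k1 : ∀ r, Continuous (k r) := fun r => by fun_prop
  have k2 : ∀ r, HasCompactSupport (k r) := fun r => .intro (isCompact_closedBall 0 r) fun u hu =>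
    max_eq_left (sub_nonpos.2 (not_le.1 (mt mem_closedBall_zero_iff.2 hu)).le)
  have k0 : ∀ r u, 0 ≤ k r u := fun _ _ => le_max_left _ _
  have I : 0 < ∫ u, k 1 u := (k1 1).integral_pos_of_hasCompactSupport_nonneg_nonzero (k2 1) (k0 1) (x := 0) (by simp [k])
  let Γ := (fun z => (‖f z‖ * exp (-(α * N z / 2))) ^ t) ⋆[.lsmul ℝ ℝ] k 4
  have Γ0 : ∀ z, 0 ≤ Γ z := fun z => integral_nonneg fun y => mul_nonneg (by positivity) (k0 _ _)
  have Γ1 : Continuous Γ := (k2 4).continuous_convolution_right _ i.locallyIntegrable (k1 4)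
  have g : Continuous fun z => (exp (α / 2 * n) ^ t / (∫ u, k 1 u) * Γ z) ^ t⁻¹ :=
    (continuous_const.mul Γ1).rpow_const fun _ => .inr (by positivity)
  refine ⟨_, g, (integrable_norm_rpow_iff g.aestronglyMeasurable p0 p1).1 ?_, fun x z hx => ?_⟩
  · refine ((i.integrable_convolution (.lsmul ℝ ℝ) ((k1 4).integrable_of_hasCompactSupport (k2 4))).const_mul
      (exp (α / 2 * n) ^ t / ∫ u, k 1 u)).congr (ae_of_all _ fun z => ?_)
    have := Γ0 z
    simp only [hq]
    rw [norm_of_nonneg (by positivity), rpow_inv_rpow (by positivity) q.ne']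
  have := Γ0 z
  rw [le_rpow_inv_iff_of_pos (by positivity) (by positivity) q, div_mul_eq_mul_div, le_div_iff₀ I]
  have D : Differentiable ℂ fun u => f (x + u) * Complex.exp (-(α * B u x)) := by unfold B; fun_prop
  have c2 : Continuous fun u => ‖f (x + u) * Complex.exp (-(α * B u x))‖ ^ t * k 1 u :=
    (D.continuous.norm.rpow_const fun _ => .inr q.le).mul (k1 1)
  have r := rot (ψ := fun u => ‖f x‖ ^ t * k 1 u) c2 (fun u => mul_nonneg (by positivity) (k0 _ _)) fun u => by
    rw [circleAverage_congr_sphere (f₂ := fun ζ => k 1 u • ‖f (x + ζ • u) * Complex.exp (-(α * B (ζ • u) x))‖ ^ t)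
      fun ζ h => by simp [k, norm_smul, show ‖ζ‖ = 1 by simpa using h, mul_comm], circleAverage_fun_smul, mul_comm]
    refine mul_le_mul_of_nonneg_left ?_ (k0 _ _)
    simpa [B] using sub (D.comp (differentiable_id.smul_const u)) q
  have i2 := c2.integrable_of_hasCompactSupport (μ := volume) (k2 1).mul_left
  rw [← ofReal_integral_eq_lintegral_ofReal (((k1 1).integrable_of_hasCompactSupport (k2 1)).const_mul _)
    (ae_of_all _ fun u => mul_nonneg (by positivity) (k0 _ _)), ← ofReal_integral_eq_lintegral_ofReal i2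
      (ae_of_all _ fun u => mul_nonneg (by positivity) (k0 _ _)), ENNReal.ofReal_le_ofReal_iff
        (integral_nonneg fun u => mul_nonneg (by positivity) (k0 _ _)), integral_const_mul] at r
  rw [mul_rpow (norm_nonneg _) (exp_pos _).le, mul_right_comm]
  refine (mul_le_mul_of_nonneg_right r (by positivity)).trans ?_
  have i3 : Integrable fun y => (‖f y‖ * exp (-(α * N y / 2))) ^ t * k 4 (z - y) :=
    ((c.rpow_const fun _ => .inr q.le).mul (by fun_prop)).integrable_of_hasCompactSupport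
      ((k2 4).comp_homeomorph (.subLeft z)).mul_left
  rw [show Γ z = ∫ u, (‖f (x + u)‖ * exp (-(α * N (x + u) / 2))) ^ t * k 4 (z - (x + u)) from
    (integral_add_left_eq_self (fun y => (‖f y‖ * exp (-(α * N y / 2))) ^ t * k 4 (z - y)) x).symm,
      ← integral_mul_const, ← integral_const_mul]
  refine integral_mono (i2.mul_const _) ((i3.comp_add_left x).const_mul _) fun u => ?_
  rcases le_total 1 ‖u‖ with a | a
  · simp only [show k 1 u = 0 from max_eq_left (sub_nonpos.2 a), mul_zero, zero_mul]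
    exact mul_nonneg (by positivity) (mul_nonneg (by positivity) (k0 _ _))
  have a1 : k 1 u ≤ k 4 (z - (x + u)) := max_le_max_left _ (by
    have := norm_add_le (x - z) u
    rw [norm_sub_rev z, show x + u - z = x - z + u by ring]
    linarith [norm_nonneg u])
  have a2 := Nle a
  simp only [nF]
  rw [mul_right_comm, ← mul_rpow (by positivity) (by positivity), ← mul_assoc (_ ^ t),
    ← mul_rpow (by positivity) (by positivity)]
  refine mul_le_mul (rpow_le_rpow (by positivity) ?_ q.le) a1 (k0 _ _) (by positivity)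
  rw [mul_assoc, mul_comm (exp (α / 2 * n)), ← exp_add, ← exp_add]
  gcongr
  nlinarith

theorem main (hn : 0 < n) {α : ℝ} (α0 : 0 < α) {f : (Fin n → ℂ) → ℂ} (hf : Differentiable ℂ f) {p : ℝ≥0∞} (p0 : p ≠ 0)
    (h : MemLp (fun z => ‖f z‖ * exp (-(α * N z / 2))) p) : ∃ g : (Fin n → ℂ) → ℝ, Continuous g ∧ (∀ z, 0 ≤ g z) ∧
      MemLp g p ∧ ∀ z w, ‖f z - f w‖ₑ ≤ d α z w * .ofReal (g z + g w) := by
  obtain ⟨κ, κ0, hκ⟩ := low hn α0
  obtain ⟨G, g1, g2, g3⟩ := dom α0 hf p0 h
  have G0 : ∀ z, 0 ≤ G z := fun z => le_trans (by positivity) (g3 z z (by simp))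
  have E : 1 ≤ exp (α / 2 * (n * 2 ^ 2)) := one_le_exp (by positivity)
  refine ⟨fun z => exp (α / 2 * (n * 2 ^ 2)) / κ * G z, by fun_prop, fun z => mul_nonneg (by positivity) (G0 z),
    g2.const_mul _, fun z w => ?_⟩
  rcases le_total ‖w - z‖ 1 with c | c
  · obtain ⟨v, rfl⟩ : ∃ v, w = z + v := ⟨w - z, by simp⟩
    rw [add_sub_cancel_left] at c
    refine le_trans ?_ (mul_le_mul' (hκ z v) (ENNReal.ofReal_le_ofReal (le_add_of_nonneg_right
      (mul_nonneg (by positivity) (G0 _)))))
    rw [← ofReal_norm, ← ENNReal.ofReal_mul (by positivity)]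
    have b : ∀ u, ‖u‖ ≤ 2 → ‖f (z + u) * Complex.exp (-(α * B u z))‖ ≤
        G z * (exp (α / 2 * N z) * exp (α / 2 * (n * 2 ^ 2))) := fun u hu => by
      rw [nF]
      exact mul_le_mul (g3 _ _ (by simpa)) (by gcongr; exact Nle hu) (by positivity) (G0 _)
    have s := Complex.dist_le_div_mul_dist_of_mapsTo_ball (f := fun u => f (z + u) * Complex.exp (-(α * B u z)))
      (c := 0) (R₁ := 2) (Differentiable.differentiableOn (by unfold B; fun_prop)) (fun u hu => mem_closedBall_iff_norm.2
        (norm_sub_le_of_le (b u (by simpa using (mem_ball.1 hu).le)) (b 0 (by simp)))) (z := v) (by simp; linarith)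
    have b0 := b 0 (by simp)
    have z0 : B 0 z = 0 := by simp [B]
    simp only [z0, mul_zero, neg_zero, Complex.exp_zero, mul_one, add_zero, dist_eq_norm, sub_zero, add_self_div_two]
      at s b0
    rw [show f z - f (z + v) = (1 - Complex.exp (α * B v z)) * f z - Complex.exp (α * B v z) *
      (f (z + v) * Complex.exp (-(α * B v z)) - f z) by rw [Complex.exp_neg]; field_simp; ring]
    refine ENNReal.ofReal_le_ofReal ((norm_sub_le_of_le (norm_mul_le_of_le le_rfl b0)
      (norm_mul_le_of_le le_rfl s)).trans_eq ?_)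
    field_simp
  have k : ∀ z w, 1 ≤ ‖w - z‖ → ‖f z‖ₑ ≤ d α z w * .ofReal (exp (α / 2 * (n * 2 ^ 2)) / κ * G z) := fun z w c => by
    have := hκ z (w - z)
    rw [add_sub_cancel] at this
    refine le_trans ?_ (mul_le_mul_left this _)
    rw [← ofReal_norm, ← ENNReal.ofReal_mul (by positivity)]
    refine ENNReal.ofReal_le_ofReal ?_
    generalize Complex.exp _ = e
    have : 1 ≤ ‖1 - e‖ + ‖e‖ * ‖w - z‖ := by
      nlinarith [norm_nonneg e, norm_add_le (1 - e) e, show ‖1 - e + e‖ = 1 by simp]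
    have b := g3 z z (by simp)
    rw [exp_neg, ← div_eq_mul_inv, div_le_iff₀ (exp_pos _)] at b
    calc _ ≤ 1 * 1 * (G z * exp (α / 2 * N z)) := by rw [one_mul, one_mul, div_mul_eq_mul_div]; exact b
      _ ≤ (‖1 - e‖ + ‖e‖ * ‖w - z‖) * exp (α / 2 * (n * 2 ^ 2)) * (G z * exp (α / 2 * N z)) := by
        have := G0 z
        gcongr
      _ = _ := by field_simp
  rw [ENNReal.ofReal_add (mul_nonneg (by positivity) (G0 _)) (mul_nonneg (by positivity) (G0 _)), mul_add]
  refine enorm_sub_le.trans (add_le_add (k z w c) ((k w z (by rwa [norm_sub_rev])).trans_eq ?_))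
  simp only [d, norm_sub_rev]

theorem gi {α : ℝ} (α0 : 0 < α) (z : Fin n → ℂ) :
    Integrable fun u => ‖Complex.exp (α * B z u)‖ * ((α / 2 / π) ^ n * exp (-(α / 2) * N u)) := by
  have a : Integrable fun u : ℂ => exp (-(α / 2) * ‖u‖ ^ 2) :=
    (GaussianFourier.integrable_cexp_neg_mul_sq_norm_add (b := (α / 2 : ℝ)) (by simpa) 0 (0 : ℂ)).norm.congr
      (ae_of_all _ fun u => by simp [Complex.norm_exp, ← Complex.ofReal_pow])
  have b : Integrable fun u : Fin n → ℂ => exp (-(α / 2) * N u) := by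
    simp only [N, Finset.mul_sum, exp_sum]
    exact Integrable.fintype_prod (f := fun _ : Fin n => _) fun _ => a
  refine ((b.comp_add_left (-z)).const_mul ((α / 2 / π) ^ n * exp (α / 2 * N z))).congr (ae_of_all _ fun u => ?_)
  simp only [Nadd, show N (-z) = N z by simp [N], show B (-z) u = -B z u by simp [B], Complex.norm_exp,
    Complex.re_ofReal_mul, Complex.neg_re]
  rw [mul_left_comm (exp _), mul_assoc, ← exp_add, ← exp_add]
  congr 2
  ring

theorem fin (hn : 0 < n) {α : ℝ} (α0 : 0 < α) {f : (Fin n → ℂ) → ℂ} (hf : Differentiable ℂ f) {p : ℝ≥0∞} (p0 : p ≠ 0)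
    (h : MemLp (fun z => ‖f z‖ * exp (-(α * N z / 2))) p) : ∃ g : (Fin n → ℂ) → ℝ, Continuous g ∧ (∀ z, 0 ≤ g z) ∧
      MemLp g p ∧ ∀ z w, ‖f z - f w‖ ≤ (∫ u, ‖Complex.exp (α * B z u) - Complex.exp (α * B w u)‖ *
        ((α / 2 / π) ^ n * exp (-(α / 2) * N u))) * (g z + g w) := by
  obtain ⟨g, g1, g2, g3, g4⟩ := main hn α0 hf p0 h
  refine ⟨g, g1, g2, g3, fun z w => ?_⟩
  have := g4 z w
  rwa [d, ← ofReal_integral_eq_lintegral_ofReal (((gi α0 z).add (gi α0 w)).mono' (Continuous.aestronglyMeasurable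
    (by unfold B; fun_prop)) (ae_of_all _ fun u => ?_)) (ae_of_all _ fun _ => by positivity),
      ← ENNReal.ofReal_mul (integral_nonneg fun _ => by positivity), ← ofReal_norm, ENNReal.ofReal_le_ofReal_iff
        (mul_nonneg (integral_nonneg fun _ => by positivity) (add_nonneg (g2 _) (g2 _)))] at this
  rw [norm_of_nonneg (by positivity), Pi.add_apply, ← add_mul]
  exact mul_le_mul_of_nonneg_right (norm_sub_le _ _) (by positivity)

end Pool.Agent.H.MP_09e892_an
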